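import Mathlib

/-!
# Project OG (helper667): the parity of the rank in Galois extensions of odd degree
-/

set_option autoImplicit false

namespace Pool.Agent.Y667.OG

/-- **ODDG**: a finite group of odd order acts on a finitely generated abelian group; the ranks of the
group and of the subgroup of the fixed elements have the same parity. -/
def St_ODDG : Prop := ∀ (G M : Type) [Group G] [Finite G] [AddCommGroup M] [DistribMulAction G M]
  [Module.Finite ℤ M], Odd (Nat.card G) →
    Even (Module.finrank ℤ M + Module.finrank ℤ (FixedPoints.addSubgroup G M))

end Pool.Agent.Y667.OG
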