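import Mathlib
import Pool.Agent.Y667.QF.Main
import Pool.Agent.Y667.BK.Fin
import Pool.Agent.Y667.PA.Prod
import Pool.Agent.Y624.OG.ODDG

/-!
# Project OG (helper667): the parity of the rank over the Galois number fields of odd degree
-/

set_option autoImplicit false

namespace Pool.Agent.Y667.OG

open WeierstrassCurve Pool.Agent.W307.RT Pool.Agent.W307.AT
open Pool.Agent.H437R2.Man.MW (crv pt_fg)

section

variable (K : Type) [Field K] [NumberField K]

open Classical in
/-- the action of the Galois group on the points -/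
noncomputable def ga (W : WeierstrassCurve ℚ) :
    DistribMulAction (K ≃ₐ[ℚ] K) (W.baseChange K).toAffine.Point where
  smul σ P := Affine.Point.map (W' := W.toAffine) (σ : K →ₐ[ℚ] K) P
  one_smul P := by
    show Affine.Point.map (W' := W.toAffine) ((1 : K ≃ₐ[ℚ] K) : K →ₐ[ℚ] K) P = P
    rcases P with _ | ⟨x, y, h⟩
    · rfl
    · rfl
  mul_smul σ τ P := by
    show Affine.Point.map (W' := W.toAffine) ((σ * τ : K ≃ₐ[ℚ] K) : K →ₐ[ℚ] K) P =
      Affine.Point.map (W' := W.toAffine) (σ : K →ₐ[ℚ] K)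
        (Affine.Point.map (W' := W.toAffine) (τ : K →ₐ[ℚ] K) P)
    rcases P with _ | ⟨x, y, h⟩
    · rfl
    · rfl
  smul_zero σ := map_zero _
  smul_add σ P Q := map_add _ _ _

open Classical in
lemma fin_K {c : ℤ × ℤ} (hD : 4 * c.1 ^ 3 + 27 * c.2 ^ 2 ≠ 0) (hT : HasT 2 (Sh c.1 c.2)) :
    Module.Finite ℤ ((Sh c.1 c.2).baseChange K).toAffine.Point := by
  obtain ⟨F, -, hF⟩ := Pool.Agent.W513.FK.parf
  obtain ⟨-, -, -, -, -, e1, e2, e3, he, -, -⟩ := hF c hD hT
  obtain ⟨d12, d13, d23⟩ := Pool.Agent.W402.FK.dist c.1 c.2 e1 e2 e3 hD he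
  have hR := Pool.Agent.TH841.SH.isR_Sh he
  have q12 : (e1 : K) ≠ e2 := by exact_mod_cast d12
  have q13 : (e1 : K) ≠ e3 := by exact_mod_cast d13
  have q23 : (e2 : K) ≠ e3 := by exact_mod_cast d23
  have hW : (Sh c.1 c.2).baseChange K = crv (-(e1 : K)) (-(e2 : K)) (-(e3 : K)) := by
    apply WeierstrassCurve.ext
    · show algebraMap ℚ K (Sh c.1 c.2).a₁ = 0
      rw [hR.h1, map_zero]
    · show algebraMap ℚ K (Sh c.1 c.2).a₂ = -(e1 : K) + -(e2 : K) + -(e3 : K)
      rw [hR.h2]
      simp only [map_neg, map_add, map_sub, map_mul, map_intCast]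
      ring
    · show algebraMap ℚ K (Sh c.1 c.2).a₃ = 0
      rw [hR.h3, map_zero]
    · show algebraMap ℚ K (Sh c.1 c.2).a₄ = _
      rw [hR.h4]
      simp only [map_neg, map_add, map_sub, map_mul, map_intCast]
      show _ = -(e1 : K) * -(e2 : K) + -(e1 : K) * -(e3 : K) + -(e2 : K) * -(e3 : K)
      ring
    · show algebraMap ℚ K (Sh c.1 c.2).a₆ = _
      rw [hR.h6]
      simp only [map_neg, map_add, map_sub, map_mul, map_intCast]
      show _ = -(e1 : K) * -(e2 : K) * -(e3 : K)
      ring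
  rw [hW]
  refine Module.Finite.iff_addGroup_fg.2 ?_
  exact pt_fg (fun h => q12 (neg_injective h)) (fun h => q13 (neg_injective h))
    (fun h => q23 (neg_injective h))

open Classical in
lemma fixed_eq (W : WeierstrassCurve ℚ) :
    letI := ga K W
    FixedPoints.addSubgroup (K ≃ₐ[ℚ] K) (W.baseChange K).toAffine.Point = Part K 1 W := by
  letI := ga K W
  ext P
  constructor
  · intro h σ
    rw [MonoidHom.one_apply, Units.val_one, one_smul]
    exact h σ
  · intro h σ
    have := h σ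
    rw [MonoidHom.one_apply, Units.val_one, one_smul] at this
    exact this

open Classical in
lemma bc_self (W : WeierstrassCurve ℚ) : W.baseChange ℚ = W := by
  apply WeierstrassCurve.ext <;> rfl

open Classical in
lemma part_ge (W : WeierstrassCurve ℚ) (hfin : Module.Finite ℤ (W.baseChange K).toAffine.Point) :
    Module.finrank ℤ W.toAffine.Point ≤ Module.finrank ℤ (Part K 1 W) := by
  let j : (W.baseChange ℚ).toAffine.Point →+ (W.baseChange K).toAffine.Point :=
    Affine.Point.map (W' := W.toAffine) (Algebra.ofId ℚ K)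
  have hj : Function.Injective j := Affine.Point.map_injective _
  have hmem : ∀ P, j P ∈ Part K 1 W := by
    intro P σ
    rw [MonoidHom.one_apply, Units.val_one, one_smul]
    rcases P with _ | ⟨x, y, h⟩
    · rfl
    · show Affine.Point.map (W' := W.toAffine) (σ : K →ₐ[ℚ] K)
        (Affine.Point.map (W' := W.toAffine) (Algebra.ofId ℚ K) (Affine.Point.some x y h)) =
        Affine.Point.map (W' := W.toAffine) (Algebra.ofId ℚ K) (Affine.Point.some x y h)
      have e : (σ : K →ₐ[ℚ] K).comp (Algebra.ofId ℚ K) = Algebra.ofId ℚ K :=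
        Subsingleton.elim _ _
      rw [Affine.Point.map_map, e]
  let k : (W.baseChange ℚ).toAffine.Point →+ Part K 1 W := j.codRestrict _ hmem
  have hk : Function.Injective k := by
    intro P Q h
    exact hj (congrArg Subtype.val h)
  have hfin2 : Module.Finite ℤ (Part K 1 W) :=
    Module.Finite.of_injective (Part K 1 W).subtype.toIntLinearMap Subtype.val_injective
  have h1 := LinearMap.finrank_le_finrank_of_injective (f := k.toIntLinearMap) hk
  have h2 : Module.finrank ℤ (W.baseChange ℚ).toAffine.Point =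
      Module.finrank ℤ W.toAffine.Point := by rw [bc_self]
  omega

open Classical in
/-- the ranks over `K` and `ℚ` have the same parity -/
theorem even_rank [IsGalois ℚ K] (hodd : Odd (Module.finrank ℚ K)) {c : ℤ × ℤ}
    (hD : 4 * c.1 ^ 3 + 27 * c.2 ^ 2 ≠ 0) (hT : HasT 2 (Sh c.1 c.2)) :
    Even (Module.finrank ℤ ((Sh c.1 c.2).baseChange K).toAffine.Point +
      Module.finrank ℤ (Sh c.1 c.2).toAffine.Point) := by
  have hfin := fin_K K hD hT
  letI := ga K (Sh c.1 c.2)
  have hG : Odd (Nat.card (K ≃ₐ[ℚ] K)) := by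
    rw [IsGalois.card_aut_eq_finrank]
    exact hodd
  have h := Pool.Agent.Y624.OG.ODDG (K ≃ₐ[ℚ] K) ((Sh c.1 c.2).baseChange K).toAffine.Point hG
  rw [fixed_eq K (Sh c.1 c.2)] at h
  have h1 := part_ge K (Sh c.1 c.2) hfin
  obtain ⟨F', -, hF'⟩ := Pool.Agent.W513.FK.parf
  obtain ⟨-, -, -, -, -, e1, e2, e3, hr, -, -⟩ := hF' c hD hT
  obtain ⟨ψ, hψ⟩ := Pool.Agent.W605.AT.dsc K 1 1 1 (by norm_num) (by norm_num)
    (by intro σ; simp) c.1 c.2
  have f2 := Pool.Agent.W307.RG.fin_tw hD hr (d := 1) (by norm_num)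
  have g2 := LinearMap.finrank_le_finrank_of_injective (f := ψ.toIntLinearMap) hψ
  have e1 : (1 : ℤ) ^ 2 * c.1 = c.1 := by ring
  have e2 : (1 : ℤ) ^ 3 * c.2 = c.2 := by ring
  rw [e1, e2] at g2
  have h3 : Module.finrank ℤ (Part K 1 (Sh c.1 c.2)) =
      Module.finrank ℤ (Sh c.1 c.2).toAffine.Point := le_antisymm g2 h1
  rw [h3] at h
  exact h

end

end Pool.Agent.Y667.OG
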