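import Pool.Agent.Y667.OG.Pair
import Pool.Agent.Y667.OG.Rank

/-!
# Project OG (helper667): assembly
-/

set_option autoImplicit false

namespace Pool.Agent.Y667.OG

open Finset Filter Pool.Agent.W262.RK Pool.Agent.W307.RT Pool.Agent.W307.RS Pool.Agent.W307.SE
  Pool.Agent.W307.FK Pool.Agent.Y667.RP Pool.Agent.Y667.RZ Pool.Agent.Y667.MT
open Pool.Agent.Y285.RP Pool.Agent.Y285.RZ Pool.Agent.Y738.MT
open Pool.Agent.Y667.PA (TPR pair_of transR DP npow_eq)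

/-- the property of the curves -/
def TOG (r : ℕ) (k : ℤ × ℤ) : Prop := TPR r k ∧
  ∀ (K : Type) [Field K] [NumberField K] [IsGalois ℚ K], Odd (Module.finrank ℚ K) →
    RootNumberK ((⟨0, 0, 0, (k.1 : ℚ), (k.2 : ℚ)⟩ : WeierstrassCurve ℚ).map (algebraMap ℚ K))
      ((-1) ^ r)

open Classical in
theorem curvesOG (r : ℕ) : ∃ c : ℝ, 0 < c ∧ ∃ H0 : ℕ, ∀ H : ℕ, H0 ≤ H →
    c * ((Cv 2 H).card : ℝ) ≤ (((Cv 2 H).filter (TOG r)).card : ℝ) := by
  refine transR r (TOG r) fun X t ht h => ?_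
  obtain ⟨s, hs, e0, e1, hkk, h | h⟩ := pair_of ht h
  · left
    refine ⟨h.1, ?_⟩
    intro K _ _ _ hodd
    have hD : DP s := ⟨hs.sq, hs.odd, hs.rel, hs.m0, hs.m1⟩
    have h1 := rootK1 K hodd hD hkk
    rw [e0, e1, npow_eq (r := r) (by rw [← e0, ← e1]; exact h.2)] at h1
    exact h1
  · right
    refine ⟨h.1, ?_⟩
    intro K _ _ _ hodd
    have hD : DP s := ⟨hs.sq, hs.odd, hs.rel, hs.m0, hs.m1⟩
    have h17 : ¬ 17 ∣ ∏ j, s j := by
      intro h
      have := hs.big 17 (by norm_num) h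
      omega
    have h1 := rootK17 K hodd hD h17 hs.n0 hs.n1 hkk
    rw [e0, e1, npow_eq (r := r) (by rw [← e0, ← e1]; exact h.2)] at h1
    exact h1

end Pool.Agent.Y667.OG
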