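import Pool.Agent.Y667.OG.Main
import Pool.Agent.Y667.PA.Prod

/-!
# Project OG (helper667): products of curves over the Galois number fields of odd degree
-/

set_option autoImplicit false

namespace Pool.Agent.Y667.OG

open Finset NumberField

section

variable {K : Type} [Field K] [NumberField K]

/-- the product of the local root numbers of a product of curves at all the places -/
def ProdRootK {g : ℕ} (W : Fin g → WeierstrassCurve K) (w : ℤ) : Prop :=
  ∃ f : Ideal (𝓞 K) → Fin g → ℤ,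
    (∀ P : Ideal (𝓞 K), P.IsPrime → P ≠ ⊥ → ∀ i, LocalRootK (W i) P (f P i)) ∧
    ∃ S : Finset (Ideal (𝓞 K)), (∀ P ∈ S, P.IsPrime ∧ P ≠ ⊥) ∧
      (∀ P : Ideal (𝓞 K), P.IsPrime → P ≠ ⊥ → P ∉ S → ∏ i, f P i = 1) ∧
      w = ((-1) ^ g) ^ Nat.card (InfinitePlace K) * ∏ P ∈ S, ∏ i, f P i

lemma prodRootK {g : ℕ} (W : Fin g → WeierstrassCurve K) (w : Fin g → ℤ)
    (h : ∀ i, RootNumberK (W i) (w i)) : ProdRootK W (∏ i, w i) := by
  classical
  choose f hf S hS h1 h2 using h
  refine ⟨fun P i => f i P, fun P hP1 hP2 i => hf i P hP1 hP2, Finset.univ.biUnion S, ?_, ?_, ?_⟩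
  · intro P hP
    obtain ⟨i, -, hi⟩ := mem_biUnion.1 hP
    exact hS i P hi
  · intro P hP1 hP2 hn
    exact prod_eq_one fun i _ => h1 i P hP1 hP2 fun hi => hn (mem_biUnion.2 ⟨i, mem_univ _, hi⟩)
  · rw [prod_comm]
    have e : ∀ i, ∏ P ∈ Finset.univ.biUnion S, f i P = ∏ P ∈ S i, f i P := by
      intro i
      refine (prod_subset (subset_biUnion_of_mem S (mem_univ i)) fun P hP hn => ?_).symm
      obtain ⟨j, -, hj⟩ := mem_biUnion.1 hP
      exact h1 i P (hS j P hj).1 (hS j P hj).2 hn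
    rw [prod_congr rfl fun i _ => e i, prod_congr rfl fun i _ => h2 i, prod_mul_distrib,
      prod_const, card_univ, Fintype.card_fin, ← pow_mul, ← pow_mul, mul_comm g]

end

end Pool.Agent.Y667.OG
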