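import Mathlib
import Pool.Agent.Y667.PA.Loc

/-!
# Project OG (helper667): points of nodal cubics over finite fields of odd degree
-/

set_option autoImplicit false

namespace Pool.Agent.Y667.OG

open Finset Pool.Agent.Y667.PA

section count

variable {F : Type} [Field F] [Fintype F] [DecidableEq F]

/-- the nodal cubic with the tangents `y (y + x) = 0` -/
lemma count_split : (Nat.card {z : F × F // z.2 ^ 2 + z.1 * z.2 = z.1 ^ 3} : ℤ) =
    Fintype.card F - 1 := by
  classical
  have e : {z : F × F // z.2 ^ 2 + z.1 * z.2 = z.1 ^ 3} ≃ {t : F // t ≠ -1} := by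
    refine ⟨fun z => ⟨z.1.2 / z.1.1, ?_⟩, fun t => ⟨(t.1 ^ 2 + t.1, t.1 ^ 3 + t.1 ^ 2), by ring⟩,
      ?_, ?_⟩
    · obtain ⟨⟨x, y⟩, h⟩ := z
      have h' : y ^ 2 + x * y = x ^ 3 := h
      show y / x ≠ -1
      intro h1
      by_cases hx : x = 0
      · rw [hx, div_zero] at h1
        exact one_ne_zero (neg_eq_zero.1 h1.symm)
      · rw [div_eq_iff hx] at h1
        rw [h1] at h'
        have : x ^ 3 = 0 := by rw [← h']; ring
        exact hx (pow_eq_zero_iff (by norm_num) |>.1 this)
    · rintro ⟨⟨x, y⟩, h⟩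
      have h' : y ^ 2 + x * y = x ^ 3 := h
      apply Subtype.ext
      show ((y / x) ^ 2 + y / x, (y / x) ^ 3 + (y / x) ^ 2) = (x, y)
      by_cases hx : x = 0
      · subst hx
        have : y = 0 := by
          have h2 : y ^ 2 = 0 := by linear_combination h'
          exact pow_eq_zero_iff (by norm_num) |>.1 h2
        subst this
        simp
      · ext
        · show (y / x) ^ 2 + y / x = x
          field_simp
          linear_combination h'
        · show (y / x) ^ 3 + (y / x) ^ 2 = y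
          field_simp
          linear_combination y * h'
    · rintro ⟨t, ht⟩
      apply Subtype.ext
      show (t ^ 3 + t ^ 2) / (t ^ 2 + t) = t
      by_cases h0 : t = 0
      · subst h0
        simp
      · have h1 : t + 1 ≠ 0 := fun h => ht (by linear_combination h)
        have h2 : t ^ 2 + t ≠ 0 := by
          have : t ^ 2 + t = t * (t + 1) := by ring
          rw [this]
          exact mul_ne_zero h0 h1
        rw [div_eq_iff h2]
        ring
  rw [Nat.card_congr e, Nat.card_eq_fintype_card, Fintype.card_subtype_compl,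
    Fintype.card_subtype_eq, Nat.cast_sub (Fintype.card_pos)]
  simp

/-- the quadratic character of an extension of odd degree of the prime field -/
lemma char_trans {p : ℕ} [Fact p.Prime] (hp2 : p ≠ 2) [CharP F p] {f : ℕ} (hf : Odd f)
    (hq : Fintype.card F = p ^ f) (n : ℤ) : quadraticChar F (n : F) = jacobiSym n p := by
  have hp : p.Prime := Fact.out
  have hF : ringChar F ≠ 2 := by
    rw [ringChar.eq F p]
    exact hp2
  have hp1 : p % 2 = 1 := hp.eq_two_or_odd.resolve_left hp2
  obtain ⟨m, hm⟩ : ∃ m, m = ∑ i ∈ range f, p ^ i := ⟨_, rfl⟩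
  have hmodd : Odd m := by
    rw [hm, Finset.odd_sum_iff_odd_card_odd]
    have : (range f).filter (fun i => Odd (p ^ i)) = range f := by
      apply filter_true_of_mem
      intro i _
      exact (Nat.odd_iff.2 hp1).pow
    rw [this, card_range]
    exact hf
  have hgeo : m * (p - 1) = p ^ f - 1 := by
    rw [hm]
    have := Nat.geomSum_eq (m := p) hp.two_le f
    rw [this]
    exact Nat.div_mul_cancel (Nat.sub_one_dvd_pow_sub_one p f)
  have hq2 : Fintype.card F / 2 = p / 2 * m := by
    rw [hq]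
    have h1 : 1 ≤ p ^ f := Nat.one_le_pow _ _ hp.pos
    have h2 : p - 1 = 2 * (p / 2) := by omega
    rw [h2] at hgeo
    have h3 : p ^ f = 2 * (p / 2 * m) + 1 := by
      have : m * (2 * (p / 2)) = 2 * (p / 2 * m) := by ring
      omega
    omega
  have h1 : ((quadraticChar F (n : F) : ℤ) : F) = (n : F) ^ (Fintype.card F / 2) :=
    quadraticChar_eq_pow_of_char_ne_two' hF _
  have h2 : ((jacobiSym n p : ℤ) : F) = (n : F) ^ (p / 2) := by
    rw [← jacobiSym.legendreSym.to_jacobiSym]
    have h3 : ((legendreSym p n : ℤ) : ZMod p) = (n : ZMod p) ^ (p / 2) := legendreSym.eq_pow p n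
    have h4 := congrArg (ZMod.castHom (dvd_refl p) F) h3
    rw [map_pow, map_intCast, map_intCast] at h4
    exact h4
  have h3 : ((jacobiSym n p : ℤ) : F) ^ m = ((jacobiSym n p : ℤ) : F) := by
    have h4 : (jacobiSym n p) ^ m = jacobiSym n p := by
      rcases jacobiSym.trichotomy n p with h | h | h
      · rw [h, zero_pow hmodd.pos.ne']
      · rw [h, one_pow]
      · rw [h, hmodd.neg_one_pow]
    rw [← Int.cast_pow, h4]
  have h5 : ((quadraticChar F (n : F) : ℤ) : F) = ((jacobiSym n p : ℤ) : F) := by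
    rw [h1, hq2, pow_mul, ← h2, h3]
  have hinj : ∀ x y : ℤ, (x = 0 ∨ x = 1 ∨ x = -1) → (y = 0 ∨ y = 1 ∨ y = -1) →
      (x : F) = y → x = y := by
    intro x y hx hy hxy
    have h20 : (2 : F) ≠ 0 := by
      intro h
      exact hF (by
        have := (ringChar.spec F 2).1 (by exact_mod_cast h)
        rcases (Nat.dvd_prime Nat.prime_two).1 this with h | h
        · exact absurd h (CharP.ringChar_ne_one)
        · exact h)
    have h10 : (1 : F) ≠ 0 := one_ne_zero
    rcases hx with rfl | rfl | rfl <;> rcases hy with rfl | rfl | rfl <;> push_cast at hxy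
    all_goals first
      | rfl
      | exact absurd hxy.symm h10
      | exact absurd hxy h10
      | exact absurd (neg_eq_zero.1 hxy) h10
      | exact absurd (neg_eq_zero.1 hxy.symm) h10
      | exact absurd (by linear_combination hxy) h20
      | exact absurd (by linear_combination -hxy) h20
  refine hinj _ _ ?_ ?_ h5
  · exact quadraticChar_isQuadratic F (n : F)
  · exact jacobiSym.trichotomy n p

/-- the number of the solutions of the Weierstrass equation -/
lemma card_eqn (V : WeierstrassCurve ℤ) : Nat.card {z : F × F //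
    (V.map (Int.castRingHom F)).toAffine.Equation z.1 z.2} =
    Nat.card {z : F × F // z.2 ^ 2 + (V.a₁ : F) * z.1 * z.2 + (V.a₃ : F) * z.2 =
      z.1 ^ 3 + (V.a₂ : F) * z.1 ^ 2 + (V.a₄ : F) * z.1 + (V.a₆ : F)} := by
  apply Nat.card_congr
  apply Equiv.subtypeEquivRight
  intro z
  rw [WeierstrassCurve.Affine.equation_iff]
  exact Iff.rfl

/-- `a` over the field `F` -/
noncomputable def aF (F : Type) [Field F] (V : WeierstrassCurve ℤ) : ℤ :=
  (Nat.card F : ℤ) - Nat.card {z : F × F // (V.map (Int.castRingHom F)).toAffine.Equation z.1 z.2}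

lemma two_ne' {p : ℕ} [Fact p.Prime] (hp2 : p ≠ 2) [CharP F p] : (2 : F) ≠ 0 := by
  intro h
  have h2 : ((2 : ℕ) : F) = 0 := by exact_mod_cast h
  have h3 := (CharP.cast_eq_zero_iff F p 2).1 h2
  exact hp2 ((Nat.prime_dvd_prime_iff_eq (Fact.out : p.Prime) Nat.prime_two).1 h3)

/-- completing the square -/
lemma nF_odd {p : ℕ} [Fact p.Prime] (hp2 : p ≠ 2) [CharP F p] {b c : ℤ} (hb : b % 4 = 1) :
    Nat.card {z : F × F // ((Vm b c).map (Int.castRingHom F)).toAffine.Equation z.1 z.2} =
      Nat.card {z : F × F // z.2 ^ 2 = z.1 * (4 * z.1 + b) * (z.1 - 8 * c)} := by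
  have h2 : (2 : F) ≠ 0 := two_ne' hp2
  have e4 : (4 : F) * (((b - 1) / 4 : ℤ) : F) = b - 1 := by
    have : 4 * ((b - 1) / 4) = b - 1 := by omega
    exact_mod_cast congrArg (Int.cast : ℤ → F) this
  rw [card_eqn]
  refine Nat.card_congr (Equiv.subtypeEquiv
    ⟨fun z => (z.1, 2 * z.2 + z.1), fun z => (z.1, (z.2 - z.1) / 2), ?_, ?_⟩ ?_)
  · intro z
    ext
    · rfl
    · show (2 * z.2 + z.1 - z.1) / 2 = z.2
      field_simp
      ring
  · intro z
    ext
    · rfl
    · show 2 * ((z.2 - z.1) / 2) + z.1 = z.2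
      field_simp
      ring
  · intro z
    show z.2 ^ 2 + ((Vm b c).a₁ : F) * z.1 * z.2 + ((Vm b c).a₃ : F) * z.2 =
      z.1 ^ 3 + ((Vm b c).a₂ : F) * z.1 ^ 2 + ((Vm b c).a₄ : F) * z.1 +
        ((Vm b c).a₆ : F) ↔ (2 * z.2 + z.1) ^ 2 = z.1 * (4 * z.1 + b) * (z.1 - 8 * c)
    unfold Vm
    push_cast
    have h4 : (4 : F) ≠ 0 := by
      have : (4 : F) = 2 * 2 := by norm_num
      rw [this]
      exact mul_ne_zero h2 h2
    constructor
    · intro h
      linear_combination 4 * h + z.1 ^ 2 * e4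
    · intro h
      apply mul_left_cancel₀ h4
      linear_combination h - z.1 ^ 2 * e4

lemma node_aF {p : ℕ} [Fact p.Prime] (hp2 : p ≠ 2) [CharP F p] {f : ℕ} (hf : Odd f)
    (hq : Fintype.card F = p ^ f) {b c : ℤ} (hb : b % 4 = 1) (u α β : F) (hα : α ≠ 0)
    (hg : ∀ x : F, x * (4 * x + b) * (x - 8 * c) = (x - u) ^ 2 * (α * x + β)) (n : ℤ)
    (hn : α * u + β = n) : aF F (Vm b c) = jacobiSym n p := by
  have h1 : ringChar F ≠ 2 := by
    rw [ringChar.eq F p]
    exact hp2
  unfold aF
  rw [nF_odd hp2 hb]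
  have h2 : (Nat.card {z : F × F // z.2 ^ 2 = z.1 * (4 * z.1 + b) * (z.1 - 8 * c)} : ℤ) =
      Fintype.card F - quadraticChar F (α * u + β) := by
    rw [← count_node h1 u α β hα]
    congr 1
    apply Nat.card_congr
    exact Equiv.subtypeEquivRight fun z => by rw [hg]
  rw [h2, Nat.card_eq_fintype_card, hn, char_trans hp2 hf hq]
  ring

lemma cast_zero {p : ℕ} [CharP F p] {n : ℤ} (h : (p : ℤ) ∣ n) : (n : F) = 0 :=
  (CharP.intCast_eq_zero_iff F p n).2 h

lemma four_ne' {p : ℕ} [Fact p.Prime] (hp2 : p ≠ 2) [CharP F p] : (4 : F) ≠ 0 := by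
  have : (4 : F) = 2 * 2 := by norm_num
  rw [this]
  exact mul_ne_zero (two_ne' hp2) (two_ne' hp2)

lemma aF_a {p : ℕ} [Fact p.Prime] (hp2 : p ≠ 2) [CharP F p] {f : ℕ} (hf : Odd f)
    (hq : Fintype.card F = p ^ f) {b c : ℤ} (hb : b % 4 = 1) (h : (p : ℤ) ∣ b + 32 * c) :
    aF F (Vm b c) = ap (Vm b c) p := by
  have h1 : (b : F) + 32 * c = 0 := by
    have := cast_zero (F := F) h
    push_cast at this
    exact this
  rw [ap_a hb hp2 h]
  apply node_aF hp2 hf hq hb (8 * c) 4 0 (four_ne' hp2)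
  · intro x
    linear_combination x * (x - 8 * c) * h1
  · push_cast
    linear_combination h1

lemma aF_b {p : ℕ} [Fact p.Prime] (hp2 : p ≠ 2) [CharP F p] {f : ℕ} (hf : Odd f)
    (hq : Fintype.card F = p ^ f) {b c : ℤ} (hb : b % 4 = 1) (h : (p : ℤ) ∣ b) :
    aF F (Vm b c) = ap (Vm b c) p := by
  have h1 : (b : F) = 0 := cast_zero h
  rw [ap_b hb hp2 h]
  apply node_aF hp2 hf hq hb 0 4 (-(32 * c)) (four_ne' hp2)
  · intro x
    linear_combination x * (x - 8 * c) * h1
  · push_cast
    linear_combination h1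

lemma aF_c {p : ℕ} [Fact p.Prime] (hp2 : p ≠ 2) [CharP F p] {f : ℕ} (hf : Odd f)
    (hq : Fintype.card F = p ^ f) {b c : ℤ} (hb : b % 4 = 1) (h : (p : ℤ) ∣ c) :
    aF F (Vm b c) = ap (Vm b c) p := by
  have h1 : (c : F) = 0 := cast_zero h
  rw [ap_c hb hp2 h]
  apply node_aF hp2 hf hq hb 0 4 b (four_ne' hp2)
  · intro x
    linear_combination (-8) * x * (4 * x + b) * h1
  · push_cast
    linear_combination (-32) * h1

lemma aF_two [CharP F 2] {b c : ℤ} (hb : b % 8 = 1) : aF F (Vm b c) = ap (Vm b c) 2 := by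
  have e2 : (((b - 1) / 4 - 8 * c : ℤ) : F) = 0 := by
    apply cast_zero (p := 2)
    push_cast
    omega
  have e4 : ((-(2 * b * c) : ℤ) : F) = 0 := by
    apply cast_zero (p := 2)
    push_cast
    exact ⟨-(b * c), by ring⟩
  rw [ap_two hb]
  unfold aF
  rw [card_eqn]
  have h : Nat.card {z : F × F // z.2 ^ 2 + ((Vm b c).a₁ : F) * z.1 * z.2 +
      ((Vm b c).a₃ : F) * z.2 = z.1 ^ 3 + ((Vm b c).a₂ : F) * z.1 ^ 2 +
        ((Vm b c).a₄ : F) * z.1 + ((Vm b c).a₆ : F)} =
      Nat.card {z : F × F // z.2 ^ 2 + z.1 * z.2 = z.1 ^ 3} := by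
    apply Nat.card_congr
    apply Equiv.subtypeEquivRight
    intro z
    unfold Vm
    simp only [e2, e4]
    push_cast
    constructor
    · intro h
      linear_combination h
    · intro h
      linear_combination h
  rw [h, count_split, Nat.card_eq_fintype_card]
  ring

end count

end Pool.Agent.Y667.OG
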