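import Mathlib
import Pool.Agent.Y667.OG.Count

/-!
# Project OG (helper667): root numbers over the Galois number fields of odd degree
-/

set_option autoImplicit false

namespace Pool.Agent.Y667.OG

open Finset NumberField Ideal Pool.Agent.Y667.PA

section defs

variable {K : Type} [Field K] [NumberField K]

/-- `V` is an equation of `W` with coefficients in the ring of integers -/
def ModelOfK (W : WeierstrassCurve K) (V : WeierstrassCurve (𝓞 K)) : Prop :=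
  ∃ C : WeierstrassCurve.VariableChange K, C • W = V.map (algebraMap (𝓞 K) K)

/-- `a_P`: the norm of `P` minus the number of the affine points modulo `P` -/
noncomputable def aP (V : WeierstrassCurve (𝓞 K)) (P : Ideal (𝓞 K)) : ℤ :=
  (Nat.card (𝓞 K ⧸ P) : ℤ) - Nat.card {z : (𝓞 K ⧸ P) × (𝓞 K ⧸ P) //
    (V.map (Ideal.Quotient.mk P)).toAffine.Equation z.1 z.2}

/-- the quadratic twist -/
def twistK (V : WeierstrassCurve (𝓞 K)) (d : 𝓞 K) : WeierstrassCurve K :=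
  ⟨0, (d : K) * (V.b₂ : K), 0, 8 * (d : K) ^ 2 * (V.b₄ : K), 16 * (d : K) ^ 3 * (V.b₆ : K)⟩

open Classical in
/-- the local root number at `P` -/
def LocalRootK (W : WeierstrassCurve K) (P : Ideal (𝓞 K)) (w : ℤ) : Prop :=
  (∃ V : WeierstrassCurve (𝓞 K), ModelOfK W V ∧ V.Δ ∉ P ∧ w = 1) ∨
  (∃ V : WeierstrassCurve (𝓞 K), ModelOfK W V ∧ V.Δ ∈ P ∧ V.c₄ ∉ P ∧ w = -aP V P) ∨
  ((2 : 𝓞 K) ∉ P ∧ ∃ (V : WeierstrassCurve (𝓞 K)) (d : 𝓞 K) (n : ℕ), Odd n ∧ d ∈ P ^ n ∧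
    d ∉ P ^ (n + 1) ∧ (∃ C : WeierstrassCurve.VariableChange K, C • W = twistK V d) ∧ V.Δ ∉ P ∧
    w = if IsSquare (-1 : 𝓞 K ⧸ P) then 1 else -1)

/-- the root number over `K` -/
def RootNumberK (W : WeierstrassCurve K) (w : ℤ) : Prop :=
  ∃ f : Ideal (𝓞 K) → ℤ, (∀ P : Ideal (𝓞 K), P.IsPrime → P ≠ ⊥ → LocalRootK W P (f P)) ∧
    ∃ S : Finset (Ideal (𝓞 K)), (∀ P ∈ S, P.IsPrime ∧ P ≠ ⊥) ∧
      (∀ P : Ideal (𝓞 K), P.IsPrime → P ≠ ⊥ → P ∉ S → f P = 1) ∧
      w = (-1) ^ Nat.card (InfinitePlace K) * ∏ P ∈ S, f P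

end defs

section odd

variable (K : Type) [Field K] [NumberField K]

lemma odd_all [IsGalois ℚ K] (hodd : Odd (Module.finrank ℚ K)) {p : ℕ} (hp : p.Prime) :
    Odd (primesOver (span {(p : ℤ)}) (𝓞 K)).ncard ∧
    ∀ P ∈ primesOver (span {(p : ℤ)}) (𝓞 K), Odd (P.inertiaDeg ℤ) ∧ Odd (P.ramificationIdx ℤ) := by
  have : Fact p.Prime := ⟨hp⟩
  have hpz : Prime (p : ℤ) := Nat.prime_iff_prime_int.1 hp
  have hmax : (span {(p : ℤ)}).IsMaximal := Int.ideal_span_isMaximal_of_prime p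
  have hprime : (span {(p : ℤ)}).IsPrime := hmax.isPrime
  have h := ncard_primesOver_mul_ramificationIdxIn_mul_inertiaDegIn (span {(p : ℤ)}) (𝓞 K) Gal(K/ℚ)
  rw [IsGaloisGroup.card_eq_finrank Gal(K/ℚ) ℚ K] at h
  rw [← h] at hodd
  obtain ⟨h1, h2⟩ := Nat.odd_mul.1 hodd
  obtain ⟨h3, h4⟩ := Nat.odd_mul.1 h2
  refine ⟨h1, fun P hP => ?_⟩
  have : P.IsPrime := hP.1
  have : P.LiesOver (span {(p : ℤ)}) := hP.2
  rw [ramificationIdxIn_eq_ramificationIdx (span {(p : ℤ)}) P Gal(K/ℚ)] at h3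
  rw [inertiaDegIn_eq_inertiaDeg (span {(p : ℤ)}) P Gal(K/ℚ)] at h4
  exact ⟨h4, h3⟩

lemma odd_inf [IsGalois ℚ K] (hodd : Odd (Module.finrank ℚ K)) :
    Odd (Nat.card (InfinitePlace K)) := by
  have : IsUnramifiedAtInfinitePlaces ℚ K := IsUnramifiedAtInfinitePlaces_of_odd_finrank hodd
  have h := IsUnramifiedAtInfinitePlaces.card_infinitePlace ℚ K
  rw [Nat.card_eq_fintype_card, h]
  have h1 : Fintype.card (InfinitePlace ℚ) = 1 := by
    rw [Fintype.card_eq_one_iff_nonempty_unique]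
    exact ⟨inferInstance⟩
  rw [h1, one_mul]
  exact hodd

variable {K}

/-- the prime below -/
noncomputable def below (P : Ideal (𝓞 K)) : ℕ := absNorm (under ℤ P)

lemma below_prime (P : Ideal (𝓞 K)) (h1 : P.IsPrime) (h2 : P ≠ ⊥) : (below P).Prime := by
  have : NeZero P := ⟨h2⟩
  exact Nat.absNorm_under_prime P

lemma below_mem (P : Ideal (𝓞 K)) (h1 : P.IsPrime) :
    P ∈ primesOver (span {(below P : ℤ)}) (𝓞 K) :=
  ⟨h1, Int.liesOver_span_absNorm P⟩

lemma over_ne {p : ℕ} (hp : p.Prime) {P : Ideal (𝓞 K)}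
    (h : P ∈ primesOver (span {(p : ℤ)}) (𝓞 K)) : P ≠ ⊥ := by
  have : P.LiesOver (span {(p : ℤ)}) := h.2
  rintro rfl
  have h2 := (Ideal.liesOver_iff (⊥ : Ideal (𝓞 K)) (span {(p : ℤ)})).1 this
  have h3 : (p : ℤ) ∈ under ℤ (⊥ : Ideal (𝓞 K)) := by
    rw [← h2]
    exact mem_span_singleton_self _
  rw [under_def, mem_comap, mem_bot] at h3
  have h4 : ((p : ℤ) : 𝓞 K) = 0 := h3
  have h5 : (p : ℤ) = 0 := by exact_mod_cast h4
  exact hp.ne_zero (by exact_mod_cast h5)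

lemma below_eq {p : ℕ} (hp : p.Prime) {P : Ideal (𝓞 K)}
    (h : P ∈ primesOver (span {(p : ℤ)}) (𝓞 K)) : below P = p := by
  have : P.LiesOver (span {(p : ℤ)}) := h.2
  unfold below
  rw [← (Ideal.liesOver_iff P (span {(p : ℤ)})).1 this, absNorm_span_singleton]
  simp

lemma mem_iff (P : Ideal (𝓞 K)) (n : ℤ) : (n : 𝓞 K) ∈ P ↔ (below P : ℤ) ∣ n :=
  Int.cast_mem_ideal_iff

lemma charP_quot (P : Ideal (𝓞 K)) : CharP (𝓞 K ⧸ P) (below P) := by
  have h := Ideal.ringChar_quot P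
  unfold below
  rw [← h]
  exact ringChar.charP _

lemma card_quot (P : Ideal (𝓞 K)) (h1 : P.IsPrime) (h2 : P ≠ ⊥) :
    Nat.card (𝓞 K ⧸ P) = below P ^ P.inertiaDeg ℤ := by
  have : P.LiesOver (span {(below P : ℤ)}) := (below_mem P h1).2
  rw [pow_inertiaDeg (below P) P, absNorm_apply, Submodule.cardQuot_apply]

/-- the exact power of `P` dividing `d` -/
lemma pow_mem (P : Ideal (𝓞 K)) (h1 : P.IsPrime) (h2 : P ≠ ⊥) {d : ℕ} (hd : Squarefree d)
    (hpd : below P ∣ d) : ((d : ℕ) : 𝓞 K) ∈ P ^ P.ramificationIdx ℤ ∧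
      ((d : ℕ) : 𝓞 K) ∉ P ^ (P.ramificationIdx ℤ + 1) := by
  have hp := below_prime P h1 h2
  have hlo : P.LiesOver (span {(below P : ℤ)}) := (below_mem P h1).2
  obtain ⟨m, rfl⟩ := hpd
  have hm : ¬ below P ∣ m := by
    intro h
    have h3 : below P * below P ∣ below P * m := mul_dvd_mul_left _ h
    exact hp.not_isUnit (hd _ h3)
  have hmP : ((m : ℕ) : 𝓞 K) ∉ P := by
    intro h
    have h3 : ((m : ℤ) : 𝓞 K) ∈ P := by exact_mod_cast h
    rw [mem_iff] at h3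
    exact hm (by exact_mod_cast h3)
  have hmap : (span {(below P : ℤ)}).map (algebraMap ℤ (𝓞 K)) =
      span {((below P : ℕ) : 𝓞 K)} := by
    rw [map_span, Set.image_singleton]
    simp
  have hne : (span {(below P : ℤ)}).map (algebraMap ℤ (𝓞 K)) ≠ ⊥ := by
    rw [hmap, Ne, span_singleton_eq_bot]
    exact_mod_cast hp.ne_zero
  have he := IsDedekindDomain.ramificationIdx_eq_multiplicity (q := P) (span {(below P : ℤ)}) hne
  have hfin : FiniteMultiplicity P ((span {(below P : ℤ)}).map (algebraMap ℤ (𝓞 K))) :=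
    FiniteMultiplicity.of_prime_left (prime_of_isPrime h2 h1) hne
  rw [he]
  constructor
  · have h3 := pow_multiplicity_dvd P ((span {(below P : ℤ)}).map (algebraMap ℤ (𝓞 K)))
    rw [hmap] at h3 ⊢
    rw [Nat.cast_mul]
    refine Ideal.mul_mem_right _ _ ?_
    exact (dvd_iff_le.1 h3) (mem_span_singleton_self _)
  · intro h3
    rw [Nat.cast_mul] at h3
    have h4 : ((below P : ℕ) : 𝓞 K) ∈
        P ^ (multiplicity P ((span {(below P : ℤ)}).map (algebraMap ℤ (𝓞 K))) + 1) := by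
      rw [mul_comm] at h3
      rcases h1.mul_mem_pow P h3 with h5 | h5
      · exact absurd h5 hmP
      · exact h5
    have h5 : P ^ (multiplicity P ((span {(below P : ℤ)}).map (algebraMap ℤ (𝓞 K))) + 1) ∣
        (span {(below P : ℤ)}).map (algebraMap ℤ (𝓞 K)) := by
      rw [dvd_iff_le]
      conv_lhs => rw [hmap]
      rw [span_singleton_le_iff_mem]
      exact h4
    exact hfin.not_pow_dvd_of_multiplicity_lt (Nat.lt_succ_self _) h5

end odd

end Pool.Agent.Y667.OG
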