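import Pool.Agent.Y667.OG.Trans
import Pool.Agent.Y667.PA.Pair

/-!
# Project OG (helper667): root numbers of the curves of the pairs over the Galois fields of odd degree
-/

set_option autoImplicit false

namespace Pool.Agent.Y667.OG

open Finset Pool.Agent.W262.RK Pool.Agent.W307.RT Pool.Agent.W307.RS Pool.Agent.W307.SE
  Pool.Agent.W307.FK Pool.Agent.Y667.RP Pool.Agent.Y667.RZ Pool.Agent.Y285.RP
open Pool.Agent.Y667.PA

lemma aF_pair {s : Fin 3 → ℕ} (h : DP s) {p : ℕ} (hp : p ∈ insert 2 (∏ j, s j).primeFactors)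
    (F : Type) [Field F] [Fintype F] [CharP F p] (f : ℕ) (hf : Odd f)
    (hq : Fintype.card F = p ^ f) : aF F (Vm (s 1) (s 2)) = ap (Vm (s 1) (s 2)) p := by
  classical
  have m8 : (s 1 : ℤ) % 8 = 1 := by have := h.m1; omega
  have hb : (s 1 : ℤ) % 4 = 1 := by omega
  rw [mem_insert] at hp
  rcases hp with rfl | hp
  · exact aF_two m8
  · have hpp := Nat.prime_of_mem_primeFactors hp
    have hpd := Nat.dvd_of_mem_primeFactors hp
    have : Fact p.Prime := ⟨hpp⟩
    have hp2 := h.pne hp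
    obtain ⟨j, -, hj⟩ := (hpp.prime.dvd_finsetProd_iff _).1 hpd
    have hj' : (p : ℤ) ∣ (s j : ℤ) := Int.natCast_dvd_natCast.2 hj
    rcases fin3 j with rfl | rfl | rfl
    · exact aF_a hp2 hf hq hb (by rw [← h.a_eq]; exact hj')
    · exact aF_b hp2 hf hq hb hj'
    · exact aF_c hp2 hf hq hb hj'

lemma aF_pair17 {s : Fin 3 → ℕ} (h : DP s) {p : ℕ} (hp : p ∈ insert 2 (∏ j, s j).primeFactors)
    (F : Type) [Field F] [Fintype F] [CharP F p] (f : ℕ) (hf : Odd f)
    (hq : Fintype.card F = p ^ f) :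
    aF F (Vm (17 * s 1) (17 * s 2)) = ap (Vm (17 * s 1) (17 * s 2)) p := by
  classical
  have m8 : (17 * (s 1 : ℤ)) % 8 = 1 := by have := h.m1; omega
  have hb : (17 * (s 1 : ℤ)) % 4 = 1 := by omega
  have e : (17 * (s 1 : ℤ)) + 32 * (17 * (s 2 : ℤ)) = 17 * (s 0 : ℤ) := by
    rw [h.a_eq]; ring
  rw [mem_insert] at hp
  rcases hp with rfl | hp
  · exact aF_two m8
  · have hpp := Nat.prime_of_mem_primeFactors hp
    have hpd := Nat.dvd_of_mem_primeFactors hp
    have : Fact p.Prime := ⟨hpp⟩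
    have hp2 := h.pne hp
    obtain ⟨j, -, hj⟩ := (hpp.prime.dvd_finsetProd_iff _).1 hpd
    have hj' : (p : ℤ) ∣ (s j : ℤ) := Int.natCast_dvd_natCast.2 hj
    rcases fin3 j with rfl | rfl | rfl
    · exact aF_a hp2 hf hq hb (by rw [e]; exact hj'.mul_left _)
    · exact aF_b hp2 hf hq hb (hj'.mul_left _)
    · exact aF_c hp2 hf hq hb (hj'.mul_left _)

lemma ap_pm {s : Fin 3 → ℕ} (h : DP s) {p : ℕ} (hp : p ∈ insert 2 (∏ j, s j).primeFactors) :
    -ap (Vm (s 1) (s 2)) p = 1 ∨ -ap (Vm (s 1) (s 2)) p = -1 := by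
  have m8 : (s 1 : ℤ) % 8 = 1 := by have := h.m1; omega
  rw [mem_insert] at hp
  rcases hp with rfl | hp
  · right
    rw [ap_two m8]
  · rw [h.ap_eq hp]
    split_ifs
    · exact Or.inl rfl
    · exact Or.inr rfl

lemma ap_pm17 {s : Fin 3 → ℕ} (h : DP s) (h17 : ¬ 17 ∣ ∏ j, s j) {p : ℕ}
    (hp : p ∈ insert 2 (∏ j, s j).primeFactors) :
    -ap (Vm (17 * s 1) (17 * s 2)) p = 1 ∨ -ap (Vm (17 * s 1) (17 * s 2)) p = -1 := by
  have m8 : (17 * (s 1 : ℤ)) % 8 = 1 := by have := h.m1; omega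
  have h0 := ap_pm h hp
  rw [mem_insert] at hp
  rcases hp with rfl | hp
  · right
    rw [ap_two m8]
  · have hpp := Nat.prime_of_mem_primeFactors hp
    have hpd := Nat.dvd_of_mem_primeFactors hp
    have : Fact p.Prime := ⟨hpp⟩
    have hcop : Int.gcd 17 p = 1 := by
      have h1 : Nat.Coprime 17 p := by
        rw [Nat.coprime_primes (by norm_num) hpp]
        rintro rfl
        exact h17 hpd
      exact h1
    have hj : jacobiSym 17 p = 1 ∨ jacobiSym 17 p = -1 := by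
      rcases jacobiSym.trichotomy 17 p with h1 | h1 | h1
      · exact absurd h1 (jacobiSym.ne_zero hcop)
      · exact Or.inl h1
      · exact Or.inr h1
    rw [h.ap17 hp]
    rcases hj with h1 | h1 <;> rcases h0 with h2 | h2 <;> rw [h1]
    · left; linarith
    · right; linarith
    · right; linarith
    · left; linarith

variable (K : Type) [Field K] [NumberField K]

lemma rootK1 [IsGalois ℚ K] (hoddK : Odd (Module.finrank ℚ K)) {s : Fin 3 → ℕ} (h : DP s) {k : ℤ}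
    (hk : (s 0 : ℤ) + s 1 = 3 * k) :
    RootNumberK ((⟨0, 0, 0, ((cc (s 0) (s 1) k).1 : ℚ), ((cc (s 0) (s 1) k).2 : ℚ)⟩ :
      WeierstrassCurve ℚ).map (algebraMap ℚ K))
      ((-1) ^ ((∏ j, s j).primeFactors \ sgF (s 0) (s 1) (∏ j, s j)).card) := by
  classical
  have hm := h.model hk
  have hV := h.semi
  refine glob_K hoddK (fun p => if p ∈ insert 2 (∏ j, s j).primeFactors then
    -ap (Vm (s 1) (s 2)) p else 1) (insert 2 (∏ j, s j).primeFactors) ?_ ?_
    (fun p _ hp => if_neg hp) ?_ ?_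
  · intro p hp
    show LocX _ p (if p ∈ insert 2 (∏ j, s j).primeFactors then -ap (Vm (s 1) (s 2)) p else 1)
    have hiff : p ∈ insert 2 (∏ j, s j).primeFactors ↔ (p : ℤ) ∣ (Vm (s 1) (s 2)).Δ := by
      rw [← h.primes, Nat.mem_primeFactors]
      exact ⟨fun h => Int.natCast_dvd.2 h.2.1,
        fun h => ⟨hp, Int.natCast_dvd.1 h, Int.natAbs_ne_zero.2 hV.1⟩⟩
    by_cases hmem : p ∈ insert 2 (∏ j, s j).primeFactors
    · rw [if_pos hmem]
      refine Or.inr (Or.inl ⟨_, hm, hiff.1 hmem, hV.2 p hp (hiff.1 hmem), rfl, ?_⟩)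
      intro F _ _ _ f hf hq
      exact aF_pair h hmem F f hf hq
    · rw [if_neg hmem]
      exact Or.inl ⟨_, hm, fun hd => hmem (hiff.2 hd), rfl⟩
  · intro p hp
    rw [mem_insert] at hp
    rcases hp with rfl | hp
    · exact Nat.prime_two
    · exact Nat.prime_of_mem_primeFactors hp
  · intro p hp
    show (if p ∈ insert 2 (∏ j, s j).primeFactors then -ap (Vm (s 1) (s 2)) p else 1) = 1 ∨
      (if p ∈ insert 2 (∏ j, s j).primeFactors then -ap (Vm (s 1) (s 2)) p else 1) = -1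
    rw [if_pos hp]
    exact ap_pm h hp
  · rw [← h.wSemi_eq]
    unfold wSemi
    rw [h.primes]
    congr 1
    exact prod_congr rfl fun p hp => (if_pos hp).symm

lemma rootK17 [IsGalois ℚ K] (hoddK : Odd (Module.finrank ℚ K)) {s : Fin 3 → ℕ} (h : DP s)
    (h17 : ¬ 17 ∣ ∏ j, s j) (h0 : s 0 % 17 = 1) (h1 : s 1 % 17 = 15) {k : ℤ}
    (hk : (s 0 : ℤ) + s 1 = 3 * k) :
    RootNumberK ((⟨0, 0, 0, ((cc (17 * s 0) (17 * s 1) (17 * k)).1 : ℚ),
      ((cc (17 * s 0) (17 * s 1) (17 * k)).2 : ℚ)⟩ : WeierstrassCurve ℚ).map (algebraMap ℚ K))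
      ((-1) ^ (((∏ j, s j).primeFactors \ sgF (s 0) (s 1) (∏ j, s j)).card + 1)) := by
  classical
  have m8 : (17 * (s 1 : ℤ)) % 8 = 1 := by have := h.m1; omega
  have m8' : (s 1 : ℤ) % 8 = 1 := by have := h.m1; omega
  have hb : (s 1 : ℤ) % 4 = 1 := by have := h.m1; omega
  have hb' : (17 * s 1 : ℤ) % 4 = 1 := by omega
  have p17 : Nat.Prime 17 := by norm_num
  have p17i : Prime (17 : ℤ) := Nat.prime_iff_prime_int.1 p17
  have e : (17 * (s 1 : ℤ)) + 32 * (17 * (s 2 : ℤ)) = 17 * (s 0 : ℤ) := by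
    rw [h.a_eq]; ring
  have hm : ModelOf ⟨0, 0, 0, ((cc (17 * s 0) (17 * s 1) (17 * k)).1 : ℚ),
      ((cc (17 * s 0) (17 * s 1) (17 * k)).2 : ℚ)⟩ (Vm (17 * s 1) (17 * s 2)) := by
    have := cc_model (b := 17 * s 1) (c := 17 * s 2) (k := 17 * k) hb' (by rw [e]; linarith)
    rw [e] at this
    exact this
  have hd0 : (Vm (s 1) (s 2)).Δ ≠ 0 := h.semi.1
  have hpr : ∀ p : ℕ, p.Prime → ((p : ℤ) ∣ (Vm (s 1) (s 2)).Δ ↔
      p ∈ insert 2 (∏ j, s j).primeFactors) := by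
    intro p hp
    rw [← h.primes, Nat.mem_primeFactors]
    exact ⟨fun h => ⟨hp, Int.natCast_dvd.1 h, Int.natAbs_ne_zero.2 hd0⟩,
      fun h => Int.natCast_dvd.2 h.2.1⟩
  have h17n : (17 : ℕ) ∉ insert 2 (∏ j, s j).primeFactors := by
    rw [mem_insert]
    rintro (h | h)
    · norm_num at h
    · exact h17 (Nat.dvd_of_mem_primeFactors h)
  have hne : ∀ p : ℕ, p.Prime → p ≠ 17 → ∀ n : ℕ, ∀ x : ℤ, (p : ℤ) ∣ 17 ^ n * x → (p : ℤ) ∣ x := by
    intro p hp hp17 n x hx
    rcases (Nat.prime_iff_prime_int.1 hp).dvd_or_dvd hx with h | h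
    · exfalso
      have h2 : (p : ℤ) ∣ (17 : ℕ) := by exact_mod_cast
        (Nat.prime_iff_prime_int.1 hp).dvd_of_dvd_pow h
      exact hp17 ((Nat.prime_dvd_prime_iff_eq hp p17).1 (Int.natCast_dvd_natCast.1 h2))
    · exact h
  refine glob_K hoddK (fun p => if p ∈ insert 2 (∏ j, s j).primeFactors then
    -ap (Vm (17 * s 1) (17 * s 2)) p else 1) (insert 2 (∏ j, s j).primeFactors) ?_ ?_
    (fun p _ hp => if_neg hp) ?_ ?_
  · intro p hp
    show LocX _ p (if p ∈ insert 2 (∏ j, s j).primeFactors then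
      -ap (Vm (17 * s 1) (17 * s 2)) p else 1)
    by_cases hp17 : p = 17
    · subst hp17
      rw [if_neg h17n]
      refine Or.inr (Or.inr ⟨by norm_num, Vm (s 1) (s 2), 17, dvd_refl _, p17.squarefree,
        ⟨⟨1, ((17 : ℕ) : ℚ) * ((s 1 : ℤ) - k), 0, 0⟩, ?_⟩, ?_, by norm_num⟩)
      · have := cc_twist (b := s 1) (c := s 2) (k := k) hb (by rw [← h.a_eq]; exact hk) 17
        rw [← h.a_eq] at this
        rw [← this]
        push_cast
        rfl
      · exact fun hd => h17n ((hpr 17 p17).1 hd)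
    · by_cases hmem : p ∈ insert 2 (∏ j, s j).primeFactors
      · rw [if_pos hmem]
        refine Or.inr (Or.inl ⟨_, hm, ?_, ?_, rfl, ?_⟩)
        · rw [h.disc17]
          exact ((hpr p hp).2 hmem).mul_left _
        · rw [h.c417]
          intro hd
          exact h.semi.2 p hp ((hpr p hp).2 hmem) (hne p hp hp17 2 _ hd)
        · intro F _ _ _ f hf hq
          exact aF_pair17 h hmem F f hf hq
      · rw [if_neg hmem]
        refine Or.inl ⟨_, hm, ?_, rfl⟩
        rw [h.disc17]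
        intro hd
        exact hmem ((hpr p hp).1 (hne p hp hp17 6 _ hd))
  · intro p hp
    rw [mem_insert] at hp
    rcases hp with rfl | hp
    · exact Nat.prime_two
    · exact Nat.prime_of_mem_primeFactors hp
  · intro p hp
    show (if p ∈ insert 2 (∏ j, s j).primeFactors then -ap (Vm (17 * s 1) (17 * s 2)) p else 1) = 1 ∨
      (if p ∈ insert 2 (∏ j, s j).primeFactors then -ap (Vm (17 * s 1) (17 * s 2)) p else 1) = -1
    rw [if_pos hp]
    exact ap_pm17 h h17 hp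
  · have h6 : ∏ p ∈ (∏ j, s j).primeFactors, (-ap (Vm (17 * s 1) (17 * s 2)) p) =
        ∏ p ∈ (∏ j, s j).primeFactors, (jacobiSym 17 p * -ap (Vm (s 1) (s 2)) p) :=
      prod_congr rfl fun p hp => by rw [h.ap17 hp]; ring
    rw [prod_mul_distrib, Pool.Agent.Y655.RZ.jac17 h.sq h.odd h.rel h0 h1] at h6
    have h7 := h.wSemi_eq
    unfold wSemi at h7
    rw [h.primes, prod_insert h.two, ap_two m8'] at h7
    have h8 : ∏ p ∈ insert 2 (∏ j, s j).primeFactors, (-ap (Vm (17 * s 1) (17 * s 2)) p) =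
        (-1) ^ ((∏ j, s j).primeFactors \ sgF (s 0) (s 1) (∏ j, s j)).card := by
      rw [prod_insert h.two, ap_two m8, h6, ← h7]
      ring
    have h9 : (-1 : ℤ) ^ (((∏ j, s j).primeFactors \ sgF (s 0) (s 1) (∏ j, s j)).card + 1) =
        -∏ p ∈ insert 2 (∏ j, s j).primeFactors, (-ap (Vm (17 * s 1) (17 * s 2)) p) := by
      rw [h8, pow_succ]
      ring
    rw [h9]
    congr 1
    exact prod_congr rfl fun p hp => (if_pos hp).symm

end Pool.Agent.Y667.OG
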