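import Mathlib
import Pool.Agent.Y667.OG.Field

/-!
# Project OG (helper667): root numbers over the Galois number fields of odd degree, the transfer
-/

set_option autoImplicit false

namespace Pool.Agent.Y667.OG

open Finset NumberField Ideal Pool.Agent.Y667.PA

/-- local data over `ℚ` -/
def LocX (W : WeierstrassCurve ℚ) (p : ℕ) (w : ℤ) : Prop :=
  (∃ V : WeierstrassCurve ℤ, ModelOf W V ∧ ¬ (p : ℤ) ∣ V.Δ ∧ w = 1) ∨
  (∃ V : WeierstrassCurve ℤ, ModelOf W V ∧ (p : ℤ) ∣ V.Δ ∧ ¬ (p : ℤ) ∣ V.c₄ ∧ w = -ap V p ∧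
    ∀ (F : Type) [Field F] [Fintype F] [CharP F p] (f : ℕ), Odd f → Fintype.card F = p ^ f →
      aF F V = ap V p) ∨
  (p ≠ 2 ∧ ∃ (V : WeierstrassCurve ℤ) (d : ℕ), p ∣ d ∧ Squarefree d ∧
    (∃ C : WeierstrassCurve.VariableChange ℚ, C • W = twist V d) ∧ ¬ (p : ℤ) ∣ V.Δ ∧
    w = jacobiSym (-1) p)

section

variable {K : Type} [Field K] [NumberField K]

lemma model_map {W : WeierstrassCurve ℚ} {V : WeierstrassCurve ℤ} (h : ModelOf W V) :
    ModelOfK (W.map (algebraMap ℚ K)) (V.map (Int.castRingHom (𝓞 K))) := by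
  obtain ⟨C, hC⟩ := h
  refine ⟨C.map (algebraMap ℚ K), ?_⟩
  rw [WeierstrassCurve.map_variableChange, hC, WeierstrassCurve.map_map, WeierstrassCurve.map_map]
  congr 1
  exact Subsingleton.elim _ _

lemma int_mem (P : Ideal (𝓞 K)) (n : ℤ) :
    (Int.castRingHom (𝓞 K)) n ∈ P ↔ (below P : ℤ) ∣ n := by
  rw [eq_intCast]
  exact mem_iff P n

lemma aP_eq (P : Ideal (𝓞 K)) [P.IsMaximal] (V : WeierstrassCurve ℤ) :
    letI : Field (𝓞 K ⧸ P) := Ideal.Quotient.field P
    aP (V.map (Int.castRingHom (𝓞 K))) P = aF (𝓞 K ⧸ P) V := by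
  have h : (V.map (Int.castRingHom (𝓞 K))).map (Ideal.Quotient.mk P) =
      V.map (Int.castRingHom (𝓞 K ⧸ P)) := by
    rw [WeierstrassCurve.map_map]
    congr 1
  unfold aP aF
  rw [h]

lemma locX_K [IsGalois ℚ K] (hodd : Odd (Module.finrank ℚ K)) {W : WeierstrassCurve ℚ}
    (P : Ideal (𝓞 K)) (h1 : P.IsPrime) (h2 : P ≠ ⊥) {w : ℤ} (h : LocX W (below P) w) :
    LocalRootK (W.map (algebraMap ℚ K)) P w := by
  classical
  have hp := below_prime P h1 h2
  have : Fact (below P).Prime := ⟨hp⟩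
  have hmax : P.IsMaximal := h1.isMaximal h2
  have hmem := below_mem P h1
  obtain ⟨hf, he⟩ := (odd_all K hodd hp).2 P hmem
  have hcard := card_quot P h1 h2
  rcases h with ⟨V, hV, hd, hw⟩ | ⟨V, hV, hd, h4, hw, hF⟩ | ⟨hp2, V, d, hpd, hsq, ⟨C, hC⟩, hd, hw⟩
  · refine Or.inl ⟨V.map (Int.castRingHom (𝓞 K)), model_map hV, ?_, hw⟩
    rw [WeierstrassCurve.map_Δ, int_mem]
    exact hd
  · refine Or.inr (Or.inl ⟨V.map (Int.castRingHom (𝓞 K)), model_map hV, ?_, ?_, ?_⟩)
    · rw [WeierstrassCurve.map_Δ, int_mem]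
      exact hd
    · rw [WeierstrassCurve.map_c₄, int_mem]
      exact h4
    · letI : Field (𝓞 K ⧸ P) := Ideal.Quotient.field P
      have hfin : Finite (𝓞 K ⧸ P) := by
        apply Nat.finite_of_card_ne_zero
        rw [hcard]
        exact pow_ne_zero _ hp.ne_zero
      letI : Fintype (𝓞 K ⧸ P) := Fintype.ofFinite _
      have : CharP (𝓞 K ⧸ P) (below P) := charP_quot P
      rw [hw, aP_eq]
      congr 1
      refine (hF (𝓞 K ⧸ P) (P.inertiaDeg ℤ) hf ?_).symm
      rw [← Nat.card_eq_fintype_card, hcard]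
  · refine Or.inr (Or.inr ⟨?_, V.map (Int.castRingHom (𝓞 K)), (d : 𝓞 K), P.ramificationIdx ℤ, he,
      (pow_mem P h1 h2 hsq hpd).1, (pow_mem P h1 h2 hsq hpd).2, ⟨C.map (algebraMap ℚ K), ?_⟩, ?_, ?_⟩)
    · intro h
      have h3 : ((2 : ℤ) : 𝓞 K) ∈ P := by exact_mod_cast h
      rw [mem_iff] at h3
      have h4 : below P ∣ 2 := by exact_mod_cast h3
      exact hp2 ((Nat.prime_dvd_prime_iff_eq hp Nat.prime_two).1 h4)
    · rw [WeierstrassCurve.map_variableChange, hC]
      unfold twist twistK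
      ext
      · simp
      · simp
      · simp
      · simp
      · simp
    · rw [WeierstrassCurve.map_Δ, int_mem]
      exact hd
    · letI : Field (𝓞 K ⧸ P) := Ideal.Quotient.field P
      have hfin : Finite (𝓞 K ⧸ P) := by
        apply Nat.finite_of_card_ne_zero
        rw [hcard]
        exact pow_ne_zero _ hp.ne_zero
      letI : Fintype (𝓞 K ⧸ P) := Fintype.ofFinite _
      have : CharP (𝓞 K ⧸ P) (below P) := charP_quot P
      have h5 := char_trans (F := 𝓞 K ⧸ P) hp2 hf (by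
        rw [← Nat.card_eq_fintype_card, hcard]) (-1)
      rw [hw, ← h5, quadraticChar_apply, quadraticCharFun, if_neg]
      · push_cast
        by_cases h6 : IsSquare (-1 : 𝓞 K ⧸ P)
        · rw [if_pos h6, if_pos h6]
        · rw [if_neg h6, if_neg h6]
      · push_cast
        exact neg_ne_zero.2 one_ne_zero

lemma finite_over (p : ℕ) (hp : p.Prime) : (primesOver (span {(p : ℤ)}) (𝓞 K)).Finite := by
  have : Fact p.Prime := ⟨hp⟩
  have hmax : (span {(p : ℤ)}).IsMaximal := Int.ideal_span_isMaximal_of_prime p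
  have : (span {(p : ℤ)}).IsPrime := hmax.isPrime
  exact Set.toFinite _

theorem glob_K [IsGalois ℚ K] (hodd : Odd (Module.finrank ℚ K)) {W : WeierstrassCurve ℚ}
    (f : ℕ → ℤ) (S : Finset ℕ) (hf : ∀ p : ℕ, p.Prime → LocX W p (f p)) (hS : ∀ p ∈ S, p.Prime)
    (h1 : ∀ p : ℕ, p.Prime → p ∉ S → f p = 1) (hsq : ∀ p ∈ S, f p = 1 ∨ f p = -1) {w : ℤ}
    (hw : w = -∏ p ∈ S, f p) : RootNumberK (W.map (algebraMap ℚ K)) w := by
  classical
  have hfin : ∀ p ∈ S, (primesOver (span {(p : ℤ)}) (𝓞 K)).Finite := fun p hp =>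
    finite_over p (hS p hp)
  obtain ⟨T, hT⟩ : ∃ T : ℕ → Finset (Ideal (𝓞 K)), ∀ p ∈ S,
      (T p : Set (Ideal (𝓞 K))) = primesOver (span {(p : ℤ)}) (𝓞 K) := by
    refine ⟨fun p => if h : p ∈ S then (hfin p h).toFinset else ∅, fun p hp => ?_⟩
    simp only [dif_pos hp, Set.Finite.coe_toFinset]
  have hmem : ∀ p ∈ S, ∀ P, P ∈ T p ↔ P ∈ primesOver (span {(p : ℤ)}) (𝓞 K) := by
    intro p hp P
    rw [← hT p hp, mem_coe]
  refine ⟨fun P => f (below P), fun P hP1 hP2 => locX_K hodd P hP1 hP2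
    (hf _ (below_prime P hP1 hP2)), S.biUnion T, ?_, ?_, ?_⟩
  · intro P hP
    obtain ⟨p, hp, hPp⟩ := mem_biUnion.1 hP
    rw [hmem p hp] at hPp
    exact ⟨hPp.1, over_ne (hS p hp) hPp⟩
  · intro P hP1 hP2 hn
    refine h1 _ (below_prime P hP1 hP2) fun hS' => hn ?_
    exact mem_biUnion.2 ⟨below P, hS', (hmem _ hS' P).2 (below_mem P hP1)⟩
  · rw [(odd_inf K hodd).neg_one_pow, prod_biUnion]
    · rw [hw, neg_one_mul]
      congr 1
      refine prod_congr rfl fun p hp => ?_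
      have h3 : ∀ P ∈ T p, f (below P) = f p := by
        intro P hP
        rw [hmem p hp] at hP
        rw [below_eq (hS p hp) hP]
      rw [prod_congr rfl h3, prod_const]
      have h4 : (T p).card = (primesOver (span {(p : ℤ)}) (𝓞 K)).ncard := by
        rw [← hT p hp, Set.ncard_coe_finset]
      have h5 : Odd (T p).card := by
        rw [h4]
        exact (odd_all K hodd (hS p hp)).1
      rcases hsq p hp with h | h
      · rw [h, one_pow]
      · rw [h, h5.neg_one_pow]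
    · intro p hp q hq hpq
      rw [Function.onFun, Finset.disjoint_left]
      intro P hP hQ
      rw [hmem p hp] at hP
      rw [hmem q hq] at hQ
      exact hpq ((below_eq (hS p hp) hP).symm.trans (below_eq (hS q hq) hQ))

end

end Pool.Agent.Y667.OG
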